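import Pool.Agent.BEG.Stmts

/-!
# Squad BEG (MP_be01ff_an), row FGG: the theorem for symmetric domains
-/

set_option autoImplicit false

namespace Pool.Agent.BEG.H66

open Set Filter Topology MeasureTheory
open scoped InnerProductSpace ENNReal
open Pool.Agent.BE01 Pool.Agent.BEL Pool.Agent.BEF Pool.Agent.BEN Pool.Agent.BEH

theorem fgg (KSY : KsyStmt) (FKN : FknStmt) : FggStmt := by
  intro d Ω G p a l φ hd hΩ hG hp ha hφ hφ0 heig hfin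
  obtain ⟨K, hK, hKi⟩ := KSY d Ω G (by omega) hΩ hG
  have hne : {n : ℕ | Odd n ∧ ∃ u : Lp ℝ 2 (mu Ω), Inv Ω G u ∧ u ≠ 0 ∧
      IsEig Ω ((n : ℝ) ^ 2 * l) u}.Nonempty := by
    refine ⟨1, odd_one, φ, hφ, hφ0, ?_⟩
    rw [Nat.cast_one, one_pow, one_mul]
    exact heig
  obtain ⟨n0, hn0, hmax⟩ := hfin.exists_maximal hne
  obtain ⟨hodd, u0, hu0, hu00, heig0⟩ := hn0
  obtain ⟨M, hM⟩ := FKN d Ω K p ((n0 : ℝ) ^ 2 * l) u0 hd hΩ hK hp ((hKi u0).2 hu0) hu00 heig0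
  refine hM ?_ a ha
  intro n hn h3 _ u hu hue
  by_contra hc
  have hn0' : 1 ≤ n0 := hodd.pos
  have h1 : n * n0 ∈ {n : ℕ | Odd n ∧ ∃ u : Lp ℝ 2 (mu Ω), Inv Ω G u ∧ u ≠ 0 ∧
      IsEig Ω ((n : ℝ) ^ 2 * l) u} := by
    refine ⟨hn.mul hodd, u, (hKi u).1 hu, hc, ?_⟩
    rw [Nat.cast_mul, mul_pow, mul_assoc]
    exact hue
  have h2 : n0 ≤ n * n0 := Nat.le_mul_of_pos_left n0 (by omega)
  have h4 : n * n0 ≤ n0 := hmax h1 h2
  have h5 : 3 * n0 ≤ n * n0 := Nat.mul_le_mul_right n0 h3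
  omega

end Pool.Agent.BEG.H66
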